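import Mathlib
import Pool.Agent.Work.MP_52b37d_gt.Main

set_option autoImplicit false

namespace Pool.Agent.Results.MP_52b37d_gt.HomeomorphismExample

universe u v

open Pool.Agent.Work.MP_52b37d_gt

/-- The data of the example for a map, in universe zero. -/
private theorem exists_homeo : ∃ (Y : Type) (_ : MetricSpace Y) (_ : CompactSpace Y)
    (_ : ConnectedSpace Y) (_ : Nontrivial Y) (h : Y ≃ₜ Y),
      (∀ y : Y, ∀ K : Set Y, IsClosed K → IsConnected K → y ∈ K → h y ∈ K → K = Set.univ) ∧
      ∀ g : C(Y, Circle), ContinuousMap.Homotopic g (ContinuousMap.const Y 1) := by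
  obtain ⟨X, i1, i2, i3, i4, f, hf, hirr, hg⟩ := exists_space
  let π : ∀ _ : ℕ, C(X, X) := fun _ => f
  have hsurj : ∀ m, Function.Surjective (π m) := fun _ => hf
  let Y := {x : ∀ _ : ℕ, X // ∀ m, π m (x (m + 1)) = x m}
  have hpr : ∀ (N : ℕ) (z : X), ∃ x : ∀ _ : ℕ, X, (∀ m, π m (x (m + 1)) = x m) ∧ x N = z :=
    fun N z => exists_thread (X := fun _ => X) π hsurj N z
  have h1 : CompactSpace Y := compactSpace_threads (X := fun _ => X) π
  have h2 : ConnectedSpace Y := connectedSpace_threads (X := fun _ => X) π hsurj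
  have h3 : Nontrivial Y := by
    obtain ⟨a, b, hab⟩ := exists_pair_ne X
    obtain ⟨x, hx, hxa⟩ := hpr 0 a
    obtain ⟨y, hy, hyb⟩ := hpr 0 b
    refine ⟨⟨⟨x, hx⟩, ⟨y, hy⟩, fun h => hab ?_⟩⟩
    rw [← hxa, ← hyb]
    exact congrFun (Subtype.mk_eq_mk.1 h) 0
  let σ : Y → Y := fun y => ⟨fun i => f (y.1 i), fun m => congrArg f (y.2 m)⟩
  let τ : Y → Y := fun y => ⟨fun i => y.1 (i + 1), fun m => y.2 (m + 1)⟩
  have hστ : ∀ y, σ (τ y) = y := fun y => Subtype.ext (funext fun i => y.2 i)
  have hτσ : ∀ y, τ (σ y) = y := fun y => Subtype.ext (funext fun i => y.2 i)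
  have hprc : ∀ N, Continuous (fun y : Y => y.1 N) :=
    fun N => (continuous_apply N).comp continuous_subtype_val
  have hσ : Continuous σ :=
    Continuous.subtype_mk (continuous_pi fun i => f.continuous.comp (hprc i)) _
  have hτ : Continuous τ :=
    Continuous.subtype_mk (continuous_pi fun i => hprc (i + 1)) _
  have h4 : TopologicalSpace.MetrizableSpace Y :=
    (Topology.IsEmbedding.subtypeVal (X := ∀ _ : ℕ, X)
      (p := fun x => ∀ m, π m (x (m + 1)) = x m)).metrizableSpace
  let _ := TopologicalSpace.metrizableSpaceMetric Y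
  refine ⟨Y, inferInstance, h1, h2, h3, ⟨⟨σ, τ, hτσ, hστ⟩, hσ, hτ⟩, ?_, ?_⟩
  · intro y K hK1 hK2 hy hσy
    refine eq_univ_of_proj (X := fun _ => X) (π := π) hK1 fun N z => ?_
    have h4 := hirr (y.1 N) ((fun y : Y => y.1 N) '' K)
      (hK1.isCompact.image (hprc N)).isClosed
      (hK2.image _ (hprc N).continuousOn) ⟨y, hy, rfl⟩ ⟨σ y, hσy, rfl⟩
    have h5 : z ∈ ((fun y : Y => y.1 N) '' K) := by rw [h4]; trivial
    obtain ⟨x, hx, hxz⟩ := h5
    exact ⟨x, hx, hxz⟩
  · intro g
    obtain ⟨N, g', hg'⟩ := exists_approx (fun _ => X) π hpr g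
    let u : Y → Circle := fun x => g x / g' (x.1 N)
    have hu : Continuous u := g.continuous.div' (g'.continuous.comp (hprc N))
    have hslit : ∀ x, (u x : ℂ) ∈ Complex.slitPlane := by
      intro x
      have h1 : ‖(u x : ℂ) - 1‖ < 1 := by
        have h2 : (u x : ℂ) - 1 = ((g x : ℂ) - (g' (x.1 N) : ℂ)) / (g' (x.1 N) : ℂ) := by
          simp only [u, Circle.coe_div]
          rw [sub_div, div_self (Circle.coe_ne_zero _)]
        rw [h2, norm_div, Circle.norm_coe, div_one, ← dist_eq_norm]
        exact hg' x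
      have h3 := Complex.mem_slitPlane_of_norm_lt_one h1
      rwa [add_sub_cancel] at h3
    have hψ : Continuous (fun x : Y => Complex.arg (u x : ℂ)) := by
      rw [continuous_iff_continuousAt]
      intro x
      have hc : ContinuousAt (fun x : Y => (u x : ℂ)) x :=
        (continuous_subtype_val.comp hu).continuousAt
      exact ContinuousAt.comp (f := fun x : Y => (u x : ℂ)) (g := Complex.arg)
        (Complex.continuousAt_arg (hslit x)) hc
    have k1 : ContinuousMap.Homotopic (⟨u, hu⟩ : C(Y, Circle)) (ContinuousMap.const Y 1) :=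
      homotopic_of_lift _ ⟨_, hψ⟩ fun x => Circle.exp_arg _
    have k2 : ContinuousMap.Homotopic (g'.comp (⟨fun x : Y => x.1 N, hprc N⟩ : C(Y, X)))
        (ContinuousMap.const Y 1) := by
      have := (hg g').comp (ContinuousMap.Homotopic.refl (⟨fun x : Y => x.1 N, hprc N⟩ : C(Y, X)))
      simpa using this
    have k3 := (ContinuousMap.Homotopic.refl
      (⟨fun p : Circle × Circle => p.1 * p.2, continuous_mul⟩ : C(Circle × Circle, Circle))).comp
      (k1.prodMk k2)
    have e1 : (⟨fun p : Circle × Circle => p.1 * p.2, continuous_mul⟩ :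
        C(Circle × Circle, Circle)).comp ((⟨u, hu⟩ : C(Y, Circle)).prodMk
          (g'.comp (⟨fun x : Y => x.1 N, hprc N⟩ : C(Y, X)))) = g := by
      ext x
      show ((u x * g' (x.1 N) : Circle) : ℂ) = g x
      rw [div_mul_cancel]
    have e2 : (⟨fun p : Circle × Circle => p.1 * p.2, continuous_mul⟩ :
        C(Circle × Circle, Circle)).comp ((ContinuousMap.const Y (1 : Circle)).prodMk
          (ContinuousMap.const Y (1 : Circle))) = ContinuousMap.const Y 1 := by
      ext x
      show (((1 : Circle) * 1 : Circle) : ℂ) = (1 : Circle)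
      rw [mul_one]
    rwa [e1, e2] at k3

/-- A continuum with such a map is indecomposable. -/
private theorem indecomposable {Y : Type*} [TopologicalSpace Y] [ConnectedSpace Y] (h : Y → Y)
    (hs : Function.Surjective h)
    (hirr : ∀ y : Y, ∀ K : Set Y, IsClosed K → IsConnected K → y ∈ K → h y ∈ K → K = Set.univ)
    (A B : Set Y) (hA1 : IsClosed A) (hA2 : IsConnected A) (hB1 : IsClosed B)
    (hB2 : IsConnected B) (hAB : A ∪ B = Set.univ) : A = Set.univ ∨ B = Set.univ := by
  by_contra hcon
  push Not at hcon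
  obtain ⟨hA, hB⟩ := hcon
  have h1 : ∀ y ∈ A, h y ∉ A := fun y hy hy' => hA (hirr y A hA1 hA2 hy hy')
  have h2 : ∀ y ∈ B, h y ∉ B := fun y hy hy' => hB (hirr y B hB1 hB2 hy hy')
  have h3 : (Set.univ ∩ (A ∩ B)).Nonempty :=
    isPreconnected_closed_iff.1 (isPreconnected_univ (α := Y)) A B hA1 hB1 hAB.symm.subset
      (by simpa using hA2.1) (by simpa using hB2.1)
  obtain ⟨x, -, hxA, hxB⟩ := h3
  obtain ⟨y, rfl⟩ := hs x
  have h4 : y ∈ A ∪ B := by rw [hAB]; trivial
  rcases h4 with h4 | h4
  · exact h1 y h4 hxA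
  · exact h2 y h4 hxB

/-- In every universe there are a nondegenerate metric continuum `M` and a HOMEOMORPHISM
`f : M → M` such that `M` is irreducible from `x` to `f x` for every `x`, `M` is indecomposable,
and every continuous map from `M` to a circle (any space homeomorphic to the unit circle) is
homotopic to every constant map. -/
theorem result : ∃ (M : Type u) (_ : MetricSpace M) (_ : CompactSpace M) (_ : ConnectedSpace M)
    (_ : Nontrivial M) (f : M ≃ₜ M),
      (∀ x : M, ∀ K : Set M, IsCompact K → IsConnected K → x ∈ K → f x ∈ K → K = Set.univ) ∧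
      (∀ A B : Set M, IsCompact A → IsConnected A → IsCompact B → IsConnected B →
        A ∪ B = Set.univ → A = Set.univ ∨ B = Set.univ) ∧
      ∀ (S : Type v) [TopologicalSpace S], Nonempty (S ≃ₜ Circle) →
        ∀ (g : C(M, S)) (c : S), ContinuousMap.Homotopic g (ContinuousMap.const M c) := by
  obtain ⟨Y, i1, i2, i3, i4, h, hirr, hg⟩ := exists_homeo
  let e : ULift.{u} Y ≃ₜ Y := Homeomorph.ulift
  have j2 : CompactSpace (ULift.{u} Y) := e.symm.compactSpace
  have j3 : ConnectedSpace (ULift.{u} Y) := by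
    have := e.symm.surjective.connectedSpace e.symm.continuous
    exact this
  have hirr' : ∀ x : ULift.{u} Y, ∀ K : Set (ULift.{u} Y), IsClosed K → IsConnected K → x ∈ K →
      (e.trans (h.trans e.symm)) x ∈ K → K = Set.univ := by
    intro x K hK1 hK2 hx hfx
    have h1 := hirr (e x) (e '' K) (e.isClosedMap K hK1) (hK2.image _ e.continuous.continuousOn)
      ⟨x, hx, rfl⟩ ⟨_, hfx, by simp⟩
    rw [Set.eq_univ_iff_forall] at h1 ⊢
    intro z
    obtain ⟨z', hz', hzz⟩ := h1 (e z)
    rwa [← e.injective hzz]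
  refine ⟨ULift.{u} Y, inferInstance, j2, j3, inferInstance, e.trans (h.trans e.symm),
    fun x K hK1 hK2 hx hfx => hirr' x K hK1.isClosed hK2 hx hfx, ?_, ?_⟩
  · intro A B hA1 hA2 hB1 hB2 hAB
    exact indecomposable _ (e.trans (h.trans e.symm)).surjective hirr' A B hA1.isClosed hA2
      hB1.isClosed hB2 hAB
  · rintro S _ ⟨k⟩ g c
    have h1 : ContinuousMap.Homotopic
        (((k : C(S, Circle)).comp g).comp (e.symm : C(Y, ULift.{u} Y)))
        (ContinuousMap.const Y 1) := hg _
    have h2 := (ContinuousMap.Homotopic.refl (k.symm : C(Circle, S))).comp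
      (h1.comp (ContinuousMap.Homotopic.refl (e : C(ULift.{u} Y, Y))))
    have e1 : (k.symm : C(Circle, S)).comp ((((k : C(S, Circle)).comp g).comp
        (e.symm : C(Y, ULift.{u} Y))).comp (e : C(ULift.{u} Y, Y))) = g := by
      ext x
      simp
    have e2 : (k.symm : C(Circle, S)).comp ((ContinuousMap.const Y (1 : Circle)).comp
        (e : C(ULift.{u} Y, Y))) = ContinuousMap.const _ (k.symm 1) := by
      ext x
      simp
    rw [e1, e2] at h2
    refine h2.trans ?_
    have hpc : PathConnectedSpace S := by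
      have : PathConnectedSpace Circle := inferInstance
      exact k.symm.surjective.pathConnectedSpace k.symm.continuous
    obtain ⟨γ⟩ := PathConnectedSpace.joined (k.symm 1) c
    refine ⟨⟨⟨fun p => γ p.1, γ.continuous.comp continuous_fst⟩, fun x => ?_, fun x => ?_⟩⟩
    · simp
    · simp

end Pool.Agent.Results.MP_52b37d_gt.HomeomorphismExample
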